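import Pool.Agent.MP_52bf41_ag.H12.Spec

/-! Two curves with a standard atlas for the same parameters are isomorphic. -/

set_option autoImplicit false

open AlgebraicGeometry CategoryTheory Limits

namespace Pool.Agent.MP_52bf41_ag.H22

open H12

section

variable {C T : Scheme.{0}} {U : C.Opens}

theorem le_fromSpec (hU : IsAffineOpen U) (m : T ⟶ Spec (.of Γ(C, U))) :
    ⊤ ≤ (m ≫ hU.fromSpec) ⁻¹ᵁ U := by
  intro x _
  have : hU.fromSpec (m x) ∈ Set.range hU.fromSpec := ⟨_, rfl⟩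
  rw [hU.range_fromSpec] at this
  exact this

theorem pl_fromSpec (hU : IsAffineOpen U) (m : T ⟶ Spec (.of Γ(C, U)))
    (h : ⊤ ≤ (m ≫ hU.fromSpec) ⁻¹ᵁ U) (b : Γ(C, U)) : pl (m ≫ hU.fromSpec) h b = pb m b := by
  have h1 : (⊤ : (Spec Γ(C, U)).Opens) ≤ hU.fromSpec ⁻¹ᵁ U := hU.fromSpec_preimage_self.ge
  have h2 : pl hU.fromSpec h1 b = (Scheme.ΓSpecIso Γ(C, U)).inv b := by
    simp only [pl, Scheme.Hom.appLE, hU.fromSpec_app_self, Category.assoc, ← Functor.map_comp]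
    simp
  have h3 := pl_pl hU.fromSpec m h1 (W := ⊤) le_top b
  rw [← h3, h2, pl_top]
  rfl

theorem exists_pl (hU : IsAffineOpen U) (φ : Γ(C, U) →+* Γ(T, ⊤)) :
    ∃ (c : T ⟶ C) (h : ⊤ ≤ c ⁻¹ᵁ U), pl c h = φ := by
  obtain ⟨m, rfl⟩ := exists_pb (A := Γ(C, U)) φ
  exact ⟨m ≫ hU.fromSpec, le_fromSpec hU m, RingHom.ext (pl_fromSpec hU m _)⟩

theorem ext_pl (hU : IsAffineOpen U) {c c' : T ⟶ C} (h : ⊤ ≤ c ⁻¹ᵁ U) (h' : ⊤ ≤ c' ⁻¹ᵁ U)
    (e : pl c h = pl c' h') : c = c' := by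
  have key : ∀ c : T ⟶ C, ⊤ ≤ c ⁻¹ᵁ U → ∃ m : T ⟶ Spec (.of Γ(C, U)), m ≫ hU.fromSpec = c := by
    intro c h
    refine ⟨IsOpenImmersion.lift hU.fromSpec c ?_, IsOpenImmersion.lift_fac _ _ _⟩
    rw [hU.range_fromSpec]
    rintro _ ⟨x, rfl⟩
    exact h (Set.mem_univ x)
  obtain ⟨m, rfl⟩ := key c h
  obtain ⟨m', rfl⟩ := key c' h'
  rw [hom_ext_pb (p := m) (p' := m') (RingHom.ext fun b => by
    rw [← pl_fromSpec hU m h, ← pl_fromSpec hU m' h', e])]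

theorem le_basicOpen_iff (c : T ⟶ C) (h : ⊤ ≤ c ⁻¹ᵁ U) (b : Γ(C, U)) :
    ⊤ ≤ c ⁻¹ᵁ C.basicOpen b ↔ IsUnit (pl c h b) := by
  constructor
  · intro hb
    refine isUnit_of_basicOpen _ ?_
    rw [basicOpen_pl]
    exact le_inf le_rfl hb
  · intro hb
    have := basicOpen_of_isUnit hb
    rw [basicOpen_pl] at this
    exact this.ge.trans inf_le_right

end

variable {A : Type} [CommRing A] {D : ℕ} {F F' : Fam (Spec (.of A))} {q t : Fin D → A}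
  {T T' : Scheme.{0}}

/-- Same coordinates in the main chart. -/
def R0 (S : Std F q t) (S' : Std F' q t) (c : T ⟶ F.C) (c' : T ⟶ F'.C) : Prop :=
  c' ≫ F'.π = c ≫ F.π ∧ ∃ (h : ⊤ ≤ c ⁻¹ᵁ S.O0) (h' : ⊤ ≤ c' ⁻¹ᵁ S'.O0),
    ∀ a, pl c' h' (S'.u a) = pl c h (S.u a)

/-- Same coordinate in a pole chart. -/
def R1 (S : Std F q t) (S' : Std F' q t) (a : Option (Fin D)) (c : T ⟶ F.C) (c' : T ⟶ F'.C) :
    Prop :=
  c' ≫ F'.π = c ≫ F.π ∧ ∃ (h : ⊤ ≤ c ⁻¹ᵁ S.O a) (h' : ⊤ ≤ c' ⁻¹ᵁ S'.O a),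
    pl c' h' (S'.s a) = pl c h (S.s a)

variable {S : Std F q t} {S' : Std F' q t} {c : T ⟶ F.C} {c' c'' : T ⟶ F'.C}
  {a : Option (Fin D)}

theorem R0.symm (h : R0 S S' c c') : R0 S' S c' c :=
  let ⟨e, h, h', k⟩ := h
  ⟨e.symm, h', h, fun a => (k a).symm⟩

theorem R1.symm (h : R1 S S' a c c') : R1 S' S a c' c :=
  let ⟨e, h, h', k⟩ := h
  ⟨e.symm, h', h, k.symm⟩

theorem R0.comp (h : R0 S S' c c') (g : T' ⟶ T) : R0 S S' (g ≫ c) (g ≫ c') := by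
  obtain ⟨e, h, h', k⟩ := h
  refine ⟨by rw [Category.assoc, e, Category.assoc], le_top.trans (g.preimage_mono h),
    le_top.trans (g.preimage_mono h'), fun a => ?_⟩
  rw [← pl_pl c' g h' (W := ⊤) le_top, k, pl_pl]

theorem R1.comp (h : R1 S S' a c c') (g : T' ⟶ T) : R1 S S' a (g ≫ c) (g ≫ c') := by
  obtain ⟨e, h, h', k⟩ := h
  refine ⟨by rw [Category.assoc, e, Category.assoc], le_top.trans (g.preimage_mono h),
    le_top.trans (g.preimage_mono h'), ?_⟩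
  rw [← pl_pl c' g h' (W := ⊤) le_top, k, pl_pl]

theorem pl_eval₂ (S : Std F q t) (c : T ⟶ F.C) (h : ⊤ ≤ c ⁻¹ᵁ S.O0)
    (p : MvPolynomial (Option (Fin D)) A) :
    pl c h (MvPolynomial.eval₂Hom (alg F.π S.O0) S.u p) =
      MvPolynomial.eval₂Hom (alg (c ≫ F.π) ⊤) (fun a => pl c h (S.u a)) p := by
  rw [MvPolynomial.map_eval₂Hom]
  congr 2
  exact RingHom.ext fun a => pl_alg _ _ _ _

theorem pl_eval₁ (S : Std F q t) (c : T ⟶ F.C) (h : ⊤ ≤ c ⁻¹ᵁ S.O a) :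
    (pl c h).comp (Polynomial.eval₂RingHom (alg F.π (S.O a)) (S.s a)) =
      Polynomial.eval₂RingHom (alg (c ≫ F.π) ⊤) (pl c h (S.s a)) := by
  apply Polynomial.ringHom_ext <;> simp

theorem R0.uniq (h : R0 S S' c c') (h2 : R0 S S' c c'') : c' = c'' := by
  obtain ⟨e, h, h', k⟩ := h
  obtain ⟨e2, h2, h2', k2⟩ := h2
  refine ext_pl S'.aff0 h' h2' (RingHom.ext fun b => ?_)
  obtain ⟨p, rfl⟩ := S'.pres.1 b
  rw [pl_eval₂, pl_eval₂, e, e2]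
  simp only [k, k2]

theorem R1.uniq (h : R1 S S' a c c') (h2 : R1 S S' a c c'') : c' = c'' := by
  obtain ⟨e, h, h', k⟩ := h
  obtain ⟨e2, h2, h2', k2⟩ := h2
  refine ext_pl (S'.aff a) h' h2' ?_
  let _ := (Polynomial.eval₂RingHom (alg F'.π (S'.O a)) (S'.s a)).toAlgebra
  have : IsLocalization.Away (gpol q t a) Γ(F'.C, S'.O a) := S'.loc a
  refine IsLocalization.ringHom_ext (Submonoid.powers (gpol q t a)) ?_
  rw [RingHom.algebraMap_toAlgebra, pl_eval₁, pl_eval₁, e, e2, k, k2]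

theorem R0.exists (S : Std F q t) (S' : Std F' q t) (c : T ⟶ F.C) (h : ⊤ ≤ c ⁻¹ᵁ S.O0) :
    ∃ c', R0 S S' c c' := by
  let ψ := MvPolynomial.eval₂Hom (alg F'.π S'.O0) S'.u
  let χ := (pl c h).comp (MvPolynomial.eval₂Hom (alg F.π S.O0) S.u)
  have hk : RingHom.ker ψ ≤ RingHom.ker χ := fun p hp => by
    rw [RingHom.mem_ker, RingHom.comp_apply, (S.pres.2 p).2 ((S'.pres.2 p).1 hp), map_zero]
  obtain ⟨c', h', e⟩ := exists_pl S'.aff0 (ψ.liftOfSurjective S'.pres.1 ⟨χ, hk⟩)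
  have e' : ∀ p, pl c' h' (ψ p) = χ p := fun p => by
    rw [e]; exact ψ.liftOfRightInverse_comp_apply _ _ ⟨χ, hk⟩ p
  refine ⟨c', hom_ext_pb (RingHom.ext fun r => ?_), h, h', fun a => ?_⟩
  · have := e' (MvPolynomial.C r)
    simpa [ψ, χ, alg_top] using this
  · simpa [ψ, χ] using e' (MvPolynomial.X a)

theorem R1.exists (S : Std F q t) (S' : Std F' q t) (c : T ⟶ F.C) (h : ⊤ ≤ c ⁻¹ᵁ S.O a) :
    ∃ c', R1 S S' a c c' := by
  let ψ := Polynomial.eval₂RingHom (alg F'.π (S'.O a)) (S'.s a)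
  let χ := (pl c h).comp (Polynomial.eval₂RingHom (alg F.π (S.O a)) (S.s a))
  have hu : IsUnit (χ (gpol q t a)) := by
    let _ := (Polynomial.eval₂RingHom (alg F.π (S.O a)) (S.s a)).toAlgebra
    have : IsLocalization.Away (gpol q t a) Γ(F.C, S.O a) := S.loc a
    exact (IsLocalization.Away.algebraMap_isUnit (S := Γ(F.C, S.O a)) (gpol q t a)).map (pl c h)
  let _ := ψ.toAlgebra
  have : IsLocalization.Away (gpol q t a) Γ(F'.C, S'.O a) := S'.loc a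
  obtain ⟨c', h', e⟩ := exists_pl (S'.aff a) (IsLocalization.Away.lift (gpol q t a) hu)
  have e' : ∀ p, pl c' h' (ψ p) = χ p := fun p => by
    rw [e]; exact IsLocalization.Away.lift_eq _ hu p
  refine ⟨c', hom_ext_pb (RingHom.ext fun r => ?_), h, h', ?_⟩
  · have := e' (Polynomial.C r)
    simpa [ψ, χ, alg_top] using this
  · simpa [ψ, χ] using e' Polynomial.X

theorem R0.toR1 (h : R0 S S' c c') (ha : ⊤ ≤ c ⁻¹ᵁ S.O a) : R1 S S' a c c' := by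
  obtain ⟨e, h, h', k⟩ := h
  have h1 : ⊤ ≤ c ⁻¹ᵁ (S.O0 ⊓ S.O a) := le_inf h ha
  have h2 : ⊤ ≤ c' ⁻¹ᵁ (S'.O0 ⊓ S'.O a) := by
    rw [S'.inter0, le_basicOpen_iff c' h', pl_eval₂, e]
    simp only [k]
    rw [← pl_eval₂, ← le_basicOpen_iff, ← S.inter0]
    exact h1
  refine ⟨e, ha, h2.trans (c'.preimage_mono inf_le_right), ?_⟩
  have k1 := congrArg (pl c h1) (S.us a)
  have k2 := congrArg (pl c' h2) (S'.us a)
  simp only [map_mul, pl_res, map_one] at k1 k2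
  rw [k a] at k2
  exact left_inv_eq_right_inv (by rw [mul_comm]; exact k2) k1

/-- `f` preserves the coordinates. -/
def Pre (S : Std F q t) (S' : Std F' q t) (f : F.C ⟶ F'.C) : Prop :=
  ∀ (T : Scheme.{0}) (c : T ⟶ F.C), (⊤ ≤ c ⁻¹ᵁ S.O0 → R0 S S' c (c ≫ f)) ∧
    ∀ a, ⊤ ≤ c ⁻¹ᵁ S.O a → R1 S S' a c (c ≫ f)

/-- The charts. -/
def chart (S : Std F q t) (i : Option (Option (Fin D))) : F.C.Opens := i.elim S.O0 S.O

theorem chart_cover (S : Std F q t) : TopologicalSpace.IsOpenCover (chart S) := by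
  refine top_le_iff.1 (S.cover.ge.trans (sup_le (le_iSup (chart S) none) ?_))
  exact iSup_le fun a => le_iSup (chart S) (some a)

theorem ι_le {C : Scheme.{0}} (U : C.Opens) : ⊤ ≤ U.ι ⁻¹ᵁ U := U.ι_preimage_self.ge

theorem exists_fac {C : Scheme.{0}} {U : C.Opens} (c : T ⟶ C) (h : ⊤ ≤ c ⁻¹ᵁ U) :
    ∃ g : T ⟶ U, g ≫ U.ι = c := by
  refine ⟨IsOpenImmersion.lift U.ι c ?_, IsOpenImmersion.lift_fac _ _ _⟩
  rw [Scheme.Opens.range_ι]
  rintro _ ⟨x, rfl⟩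
  exact h (Set.mem_univ x)

theorem le_of_fac {C : Scheme.{0}} {U : C.Opens} (g : T ⟶ U) : ⊤ ≤ (g ≫ U.ι) ⁻¹ᵁ U :=
  le_top.trans (g.preimage_mono (ι_le U))

theorem exists_pre (S : Std F q t) (S' : Std F' q t) : ∃ f, Pre S S' f := by
  obtain ⟨m0, h0⟩ := R0.exists S S' S.O0.ι (ι_le _)
  choose m hm using fun a => R1.exists S S' (S.O a).ι (ι_le _)
  have k : ∀ (T : Scheme.{0}) a (x : T ⟶ S.O0) (y : T ⟶ S.O a), x ≫ S.O0.ι = y ≫ (S.O a).ι →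
      x ≫ m0 = y ≫ m a := fun T a x y e =>
    ((h0.comp x).toR1 (e ▸ le_of_fac y)).uniq (e ▸ (hm a).comp y)
  have k' : ∀ (T : Scheme.{0}) a b, a ≠ b → ∀ (x : T ⟶ S.O a) (y : T ⟶ S.O b),
      x ≫ (S.O a).ι = y ≫ (S.O b).ι → x ≫ m a = y ≫ m b := fun T a b hab x y e => by
    have h2 : ⊤ ≤ (x ≫ (S.O a).ι) ⁻¹ᵁ S.O b := by rw [e]; exact le_of_fac y
    have h1 : ⊤ ≤ (x ≫ (S.O a).ι) ⁻¹ᵁ (S.O a ⊓ S.O b) := le_inf (le_of_fac x) h2
    obtain ⟨g, hg⟩ := exists_fac (U := S.O0) (x ≫ (S.O a).ι)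
      (h1.trans (Scheme.Hom.preimage_mono _ (S.disj a b hab)))
    exact (k _ a g _ hg).symm.trans (k _ b g _ (hg.trans e))
  let 𝒰 := F.C.openCoverOfIsOpenCover (chart S) (chart_cover S)
  let μ : ∀ i, 𝒰.X i ⟶ F'.C := fun i => Option.rec (motive := fun i => 𝒰.X i ⟶ F'.C) m0 m i
  have hμ : ∀ i j, pullback.fst (𝒰.f i) (𝒰.f j) ≫ μ i = pullback.snd _ _ ≫ μ j := by
    rintro (_ | a) (_ | b)
    · rw [(cancel_mono (𝒰.f none)).1 pullback.condition]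
    · exact k _ b _ _ pullback.condition
    · exact (k _ a _ _ pullback.condition.symm).symm
    · by_cases hab : a = b
      · subst hab
        rw [(cancel_mono (𝒰.f (some a))).1 pullback.condition]
      · exact k' _ a b hab _ _ pullback.condition
  refine ⟨𝒰.glueMorphisms μ hμ, fun T c => ⟨fun h => ?_, fun a h => ?_⟩⟩
  · obtain ⟨g, rfl⟩ := exists_fac c h
    have : S.O0.ι ≫ 𝒰.glueMorphisms μ hμ = m0 := 𝒰.ι_glueMorphisms μ hμ none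
    rw [Category.assoc, this]
    exact h0.comp g
  · obtain ⟨g, rfl⟩ := exists_fac c h
    have : (S.O a).ι ≫ 𝒰.glueMorphisms μ hμ = m a := 𝒰.ι_glueMorphisms μ hμ (some a)
    rw [Category.assoc, this]
    exact (hm a).comp g

theorem Pre.comp_id {f : F.C ⟶ F'.C} {g : F'.C ⟶ F.C} (hf : Pre S S' f) (hg : Pre S' S g) :
    f ≫ g = 𝟙 _ := by
  refine (F.C.openCoverOfIsOpenCover (chart S) (chart_cover S)).hom_ext _ _ ?_
  rintro (_ | a)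
  · have h1 := (hf _ S.O0.ι).1 (ι_le _)
    have h2 := ((hg _ _).1 h1.2.choose_spec.choose).uniq h1.symm
    rw [Category.comp_id, ← Category.assoc]
    exact h2
  · have h1 := (hf _ (S.O a).ι).2 a (ι_le _)
    have h2 := ((hg _ _).2 a h1.2.choose_spec.choose).uniq h1.symm
    rw [Category.comp_id, ← Category.assoc]
    exact h2

theorem Pre.over {f : F.C ⟶ F'.C} (hf : Pre S S' f) : f ≫ F'.π = F.π := by
  refine (F.C.openCoverOfIsOpenCover (chart S) (chart_cover S)).hom_ext _ _ ?_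
  rintro (_ | a)
  · rw [← Category.assoc]
    exact ((hf _ S.O0.ι).1 (ι_le _)).1
  · rw [← Category.assoc]
    exact ((hf _ (S.O a).ι).2 a (ι_le _)).1

theorem sec_R0 (S : Std F q t) (S' : Std F' q t) (i : Fin 3) (h : ⊤ ≤ F.σ i ⁻¹ᵁ S.O0)
    (h' : ⊤ ≤ F'.σ i ⁻¹ᵁ S'.O0) (z : A) (e : ev (F.σ i) h (S.u none) = z)
    (e' : ev (F'.σ i) h' (S'.u none) = z) (hz : ∀ l, IsUnit (z - q l)) :
    R0 S S' (F.σ i) (F'.σ i) := by
  refine ⟨by rw [F.sec, F'.sec], h, h', fun a => ?_⟩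
  rw [← pb_ev, ← pb_ev]
  congr 1
  rcases a with _ | l
  · rw [e, e']
  · have k1 := congrArg (ev (F.σ i) h) ((S.pres.2 _).2 (Ideal.subset_span ⟨l, rfl⟩))
    have k2 := congrArg (ev (F'.σ i) h') ((S'.pres.2 _).2 (Ideal.subset_span ⟨l, rfl⟩))
    simp only [rel, map_sub, map_mul, MvPolynomial.eval₂Hom_X', MvPolynomial.eval₂Hom_C,
      ev_alg _ (F.sec i), ev_alg _ (F'.sec i), e, e', map_zero] at k1 k2
    exact (hz l).mul_left_cancel (by linear_combination k2 - k1)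

theorem stdIso : SStdIso := by
  rintro A _ D F F' q t hq ⟨S⟩ ⟨S'⟩
  obtain ⟨f, hf⟩ := exists_pre S S'
  obtain ⟨g, hg⟩ := exists_pre S' S
  refine ⟨⟨f, g, hf.comp_id hg, hg.comp_id hf⟩, hf.over, fun i => ?_⟩
  fin_cases i
  · exact ((hf _ _).1 S.h0).uniq (sec_R0 S S' 0 S.h0 S'.h0 0 S.e0 S'.e0 fun l => by
      simpa using (hq.2 l).1)
  · exact ((hf _ _).1 S.h1).uniq (sec_R0 S S' 1 S.h1 S'.h1 1 S.e1 S'.e1 fun l => by
      simpa using (hq.2 l).2.neg)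
  · refine ((hf _ _).2 none S.h2).uniq ⟨?_, S.h2, S'.h2, ?_⟩
    · exact (F'.sec 2).trans (F.sec 2).symm
    · exact (pb_ev _ _ _).symm.trans ((congrArg _ (S'.e2.trans S.e2.symm)).trans (pb_ev _ _ _))

end Pool.Agent.MP_52bf41_ag.H22
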